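import Pool.Agent.L7h55.TN.Stm2

set_option autoImplicit false

/-!
Project TN (MP_9c0351_nt), second half: CG.
-/

namespace Pool.Agent.L7h65.TN2

open Polynomial
open Pool.Agent.L7h55.TN

theorem s_CG : S_CG := by
  intro A f E hev h0 hE
  have hc : f.coeff f.natDegree = f.leadingCoeff := rfl
  constructor
  · unfold H
    rw [Finset.sum_range_succ]
    have h1 : ((A : ℤ) + 1) ∣ ∑ i ∈ Finset.range f.natDegree,
        f.coeff i * (A : ℤ) ^ i * ((A : ℤ) + 1) ^ (f.natDegree - i) := by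
      apply Finset.dvd_sum
      intro i hi
      have h2 : f.natDegree - i ≠ 0 := by
        have := Finset.mem_range.1 hi
        omega
      exact dvd_mul_of_dvd_right (dvd_pow_self _ h2) _
    have h3 : ((A : ℤ) + 1) ∣ (A : ℤ) ^ f.natDegree - 1 := by
      have h4 := sub_dvd_pow_sub_pow (A : ℤ) (-1) f.natDegree
      rw [hev.neg_one_pow, sub_neg_eq_add] at h4
      exact h4
    have h5 : (∑ i ∈ Finset.range f.natDegree,
        f.coeff i * (A : ℤ) ^ i * ((A : ℤ) + 1) ^ (f.natDegree - i)) +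
        f.coeff f.natDegree * (A : ℤ) ^ f.natDegree * ((A : ℤ) + 1) ^ (f.natDegree - f.natDegree) -
        f.leadingCoeff = (∑ i ∈ Finset.range f.natDegree,
        f.coeff i * (A : ℤ) ^ i * ((A : ℤ) + 1) ^ (f.natDegree - i)) +
        f.leadingCoeff * ((A : ℤ) ^ f.natDegree - 1) := by
      rw [hc, Nat.sub_self, pow_zero]
      ring
    rw [h5]
    exact dvd_add h1 (dvd_mul_of_dvd_right h3 _)
  · unfold H
    rw [Finset.sum_range_succ']
    have h1 : E ∣ ∑ i ∈ Finset.range f.natDegree,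
        f.coeff (i + 1) * (A : ℤ) ^ (i + 1) * ((A : ℤ) + 1) ^ (f.natDegree - (i + 1)) := by
      apply Finset.dvd_sum
      intro i _
      apply dvd_mul_of_dvd_left
      apply dvd_mul_of_dvd_right
      exact dvd_pow hE (Nat.succ_ne_zero i)
    have h3 : E ∣ ((A : ℤ) + 1) ^ f.natDegree - 1 := by
      have h4 := sub_dvd_pow_sub_pow ((A : ℤ) + 1) 1 f.natDegree
      rw [one_pow, add_sub_cancel_right] at h4
      exact hE.trans h4
    have h5 : (∑ i ∈ Finset.range f.natDegree,
        f.coeff (i + 1) * (A : ℤ) ^ (i + 1) * ((A : ℤ) + 1) ^ (f.natDegree - (i + 1))) +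
        f.coeff 0 * (A : ℤ) ^ 0 * ((A : ℤ) + 1) ^ (f.natDegree - 0) -
        f.leadingCoeff = (∑ i ∈ Finset.range f.natDegree,
        f.coeff (i + 1) * (A : ℤ) ^ (i + 1) * ((A : ℤ) + 1) ^ (f.natDegree - (i + 1))) +
        f.leadingCoeff * (((A : ℤ) + 1) ^ f.natDegree - 1) := by
      rw [h0, Nat.sub_zero, pow_zero]
      ring
    rw [h5]
    exact dvd_add h1 (dvd_mul_of_dvd_right h3 _)

end Pool.Agent.L7h65.TN2
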